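import Pool.Agent.W670.ML.Defs

set_option autoImplicit false

/-!
Project ML (helper670), part IA (helper55).
-/

namespace Pool.Agent.W55.ML

open Pool.Agent.W670.ML

theorem ia : S_IA := by
  classical
  intro N τ B hB
  have hsum : τ.cycleType.sum = τ.support.card := Equiv.Perm.sum_cycleType τ
  have hcard : Multiset.card τ.cycleType = τ.cycleFactorsFinset.card := by
    rw [Equiv.Perm.cycleType_def, Multiset.card_map]
    rfl
  have hsub : B ⊆ τ.support := by
    intro x hx
    rw [Equiv.Perm.mem_support]
    intro h
    exact hB x hx (by rw [h]; exact hx)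
  have hle : τ.cycleFactorsFinset.card ≤ (τ.support \ B).card := by
    refine (Finset.card_le_card (t := (τ.support \ B).image (fun x => τ.cycleOf x)) ?_).trans
      Finset.card_image_le
    intro c hc
    rw [Finset.mem_image]
    have hc' := Equiv.Perm.mem_cycleFactorsFinset_iff.1 hc
    obtain ⟨x, hx⟩ : c.support.Nonempty := hc'.1.nonempty_support
    have hcs : c.support ⊆ τ.support := Equiv.Perm.mem_cycleFactorsFinset_support_le hc
    by_cases hxB : x ∈ B
    · have h1 : c x ∈ c.support := Equiv.Perm.apply_mem_support.2 hx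
      have h2 : c x = τ x := hc'.2 x hx
      refine ⟨c x, ?_, ?_⟩
      · rw [Finset.mem_sdiff]
        refine ⟨hcs h1, ?_⟩
        rw [h2]
        exact hB x hxB
      · exact (Equiv.Perm.cycle_is_cycleOf h1 hc).symm
    · exact ⟨x, Finset.mem_sdiff.2 ⟨hcs hx, hxB⟩, (Equiv.Perm.cycle_is_cycleOf hx hc).symm⟩
  have h3 : (τ.support \ B).card = τ.support.card - B.card := Finset.card_sdiff_of_subset hsub
  have h4 : B.card ≤ τ.support.card := Finset.card_le_card hsub
  unfold ind
  rw [hsum, hcard]
  omega

end Pool.Agent.W55.ML
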